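import Mathlib

/-!
# Stable local structure does not imply strongly stable local structure

Over every field with an element of infinite multiplicative order we give a two-dimensional module
over the crown poset `a₀, a₁ < b₀, b₁`, with all structure maps invertible, whose local structure
is stable but not strongly stable.
-/

namespace Pool.Agent.Results.MP_0548d2_gt.StableNotStronglyStable

universe u v w

/-- A module over the poset `C`: a functor from `C` to finite-dimensional vector spaces. -/
structure PosetModule (k : Type u) [Field k] (C : Type v) [PartialOrder C] where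
  /-- the vector space at an object -/
  V : C → Type w
  [grp : ∀ x, AddCommGroup (V x)]
  [mod : ∀ x, Module k (V x)]
  [fin : ∀ x, FiniteDimensional k (V x)]
  /-- the structure maps -/
  φ : ∀ {x y : C}, x ≤ y → V x →ₗ[k] V y
  φ_id : ∀ x : C, φ (le_refl x) = LinearMap.id
  φ_comp : ∀ {x y z : C} (h : x ≤ y) (h' : y ≤ z), φ h' ∘ₗ φ h = φ (h.trans h')

attribute [instance] PosetModule.grp PosetModule.mod PosetModule.fin

/-- A multi-flag of `V`: a set of subspaces containing `0` and `V`, closed under intersection. -/
structure IsMultiFlag {k : Type u} [Field k] {V : Type w} [AddCommGroup V] [Module k V]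
    (S : Set (Submodule k V)) : Prop where
  bot_mem : ⊥ ∈ S
  top_mem : ⊤ ∈ S
  inf_mem : ∀ U ∈ S, ∀ W ∈ S, U ⊓ W ∈ S

/-- The multi-flag generated by a set of subspaces. -/
def gen {k : Type u} [Field k] {V : Type w} [AddCommGroup V] [Module k V]
    (T : Set (Submodule k V)) : Set (Submodule k V) :=
  ⋂₀ {S | IsMultiFlag S ∧ T ⊆ S}

section Local

variable {k : Type u} [Field k] {C : Type v} [PartialOrder C] (M : PosetModule.{u, v, w} k C)

/-- `F_0(M)(x)`: generated by the kernels of the maps out of `x` and the images of the maps
into `x`. -/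
def base (x : C) : Set (Submodule k (M.V x)) :=
  gen ({W | ∃ (y : C) (h : x ≤ y), W = LinearMap.ker (M.φ h)} ∪
    {W | ∃ (z : C) (h : z ≤ x), W = LinearMap.range (M.φ h)})

/-- One step of the recursion: the multi-flag at `x` generated by all preimages under the maps
out of `x` and all images under the maps into `x` of the given subspaces. -/
def step (G : ∀ x : C, Set (Submodule k (M.V x))) (x : C) : Set (Submodule k (M.V x)) :=
  gen ({W | ∃ (y : C) (h : x ≤ y), ∃ U ∈ G y, W = Submodule.comap (M.φ h) U} ∪
    {W | ∃ (z : C) (h : z ≤ x), ∃ U ∈ G z, W = Submodule.map (M.φ h) U})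

/-- `F_n(M)(x)`. -/
def localStructure : ℕ → ∀ x : C, Set (Submodule k (M.V x))
  | 0 => base M
  | n + 1 => step M (localStructure n)

/-- `F^F_n(M)(x)`, the version relative to the multi-flags `F(x)`. -/
def relLocalStructure (F : ∀ x : C, Set (Submodule k (M.V x))) :
    ℕ → ∀ x : C, Set (Submodule k (M.V x))
  | 0 => fun x => gen (base M x ∪ F x)
  | n + 1 => step M (relLocalStructure F n)

/-- `M` has stable local structure. -/
def Stable : Prop :=
  ∀ x : C, ∃ N : ℕ, ∀ n ≥ N, localStructure M n x = localStructure M (n + 1) x

/-- `M` has strongly stable local structure. -/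
def StronglyStable : Prop :=
  ∀ F : ∀ x : C, Set (Submodule k (M.V x)), (∀ x, IsMultiFlag (F x) ∧ (F x).Finite) →
    ∃ N : ℕ, ∀ x : C, ⋃ n, relLocalStructure M F n x = relLocalStructure M F N x

end Local

/-- A poset is connected: it is non-empty and any two elements are linked by a zig-zag of
comparabilities. -/
def IsConnectedPoset (C : Type v) [PartialOrder C] : Prop :=
  Nonempty C ∧ ∀ x y : C, Relation.EqvGen (fun x y : C => x ≤ y) x y

/-! ### General facts on generated multi-flags -/

section Gen

variable {k : Type u} [Field k] {V : Type w} [AddCommGroup V] [Module k V]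

lemma subset_gen (T : Set (Submodule k V)) : T ⊆ gen T :=
  Set.subset_sInter fun _ hS => hS.2

lemma gen_subset {T S : Set (Submodule k V)} (hS : IsMultiFlag S) (h : T ⊆ S) : gen T ⊆ S :=
  Set.sInter_subset_of_mem ⟨hS, h⟩

lemma gen_finite {T : Set (Submodule k V)} (hT : T.Finite) : (gen T).Finite := by
  have h1 : ((T ∪ {⊥, ⊤}) : Set (Submodule k V)).Finite := hT.union (by simp)
  refine h1.infClosure.subset (gen_subset ⟨?_, ?_, ?_⟩ ?_)
  · exact subset_infClosure (by simp)
  · exact subset_infClosure (by simp)
  · intro U hU W hW
    exact infClosed_infClosure hU hW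
  · exact Set.subset_union_left.trans subset_infClosure

lemma isMultiFlag_pair : IsMultiFlag ({⊥, ⊤} : Set (Submodule k V)) := by
  refine ⟨by simp, by simp, ?_⟩
  rintro U (rfl | rfl) W (rfl | rfl) <;> simp

lemma isMultiFlag_triple (L : Submodule k V) :
    IsMultiFlag ({⊥, L, ⊤} : Set (Submodule k V)) := by
  refine ⟨by simp, by simp, ?_⟩
  rintro U (rfl | rfl | rfl) W (rfl | rfl | rfl) <;> simp

lemma gen_eq_pair {T : Set (Submodule k V)} (h : T ⊆ {⊥, ⊤}) : gen T = {⊥, ⊤} := by
  apply Set.Subset.antisymm (gen_subset isMultiFlag_pair h)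
  rintro W (rfl | rfl)
  · exact fun S hS => hS.1.bot_mem
  · exact fun S hS => hS.1.top_mem

end Gen

lemma step_finite {k : Type u} [Field k] {C : Type v} [PartialOrder C] [Finite C]
    (M : PosetModule.{u, v, w} k C) (G : ∀ x : C, Set (Submodule k (M.V x)))
    (hG : ∀ x, (G x).Finite) (x : C) : (step M G x).Finite := by
  apply gen_finite
  apply Set.Finite.union
  · have : {W | ∃ (y : C) (h : x ≤ y), ∃ U ∈ G y, W = Submodule.comap (M.φ h) U} =
      ⋃ (y : C), ⋃ (h : x ≤ y), (Submodule.comap (M.φ h)) '' (G y) := by
      ext W; simp only [Set.mem_ofPred_eq, Set.mem_iUnion, Set.mem_image, eq_comm]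
    rw [this]
    exact Set.finite_iUnion fun y => Set.finite_iUnion fun h => (hG y).image _
  · have : {W | ∃ (z : C) (h : z ≤ x), ∃ U ∈ G z, W = Submodule.map (M.φ h) U} =
      ⋃ (z : C), ⋃ (h : z ≤ x), (Submodule.map (M.φ h)) '' (G z) := by
      ext W; simp only [Set.mem_ofPred_eq, Set.mem_iUnion, Set.mem_image, eq_comm]
    rw [this]
    exact Set.finite_iUnion fun y => Set.finite_iUnion fun h => (hG y).image _

lemma base_finite {k : Type u} [Field k] {C : Type v} [PartialOrder C] [Finite C]
    (M : PosetModule.{u, v, w} k C) (x : C) : (base M x).Finite := by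
  apply gen_finite
  apply Set.Finite.union
  · have : {W | ∃ (y : C) (h : x ≤ y), W = LinearMap.ker (M.φ h)} =
      ⋃ (y : C), ⋃ (h : x ≤ y), {LinearMap.ker (M.φ h)} := by
      ext W; simp only [Set.mem_ofPred_eq, Set.mem_iUnion, Set.mem_singleton_iff]
    rw [this]
    exact Set.finite_iUnion fun y => Set.finite_iUnion fun h => Set.finite_singleton _
  · have : {W | ∃ (z : C) (h : z ≤ x), W = LinearMap.range (M.φ h)} =
      ⋃ (z : C), ⋃ (h : z ≤ x), {LinearMap.range (M.φ h)} := by
      ext W; simp only [Set.mem_ofPred_eq, Set.mem_iUnion, Set.mem_singleton_iff]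
    rw [this]
    exact Set.finite_iUnion fun y => Set.finite_iUnion fun h => Set.finite_singleton _

lemma relLocalStructure_finite {k : Type u} [Field k] {C : Type v} [PartialOrder C] [Finite C]
    (M : PosetModule.{u, v, w} k C) (F : ∀ x : C, Set (Submodule k (M.V x)))
    (hF : ∀ x, (F x).Finite) (n : ℕ) (x : C) : (relLocalStructure M F n x).Finite := by
  induction n generalizing x with
  | zero => exact gen_finite ((base_finite M x).union (hF x))
  | succ n ih => exact step_finite M _ ih x

/-! ### The crown -/

/-- The crown: `a i < b j` for all `i, j`, and no other strict relations. -/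
inductive Crown : Type
  | a (i : Bool)
  | b (i : Bool)
deriving DecidableEq, Fintype

namespace Crown

/-- The order of the crown. -/
def le : Crown → Crown → Prop
  | a i, a j => i = j
  | a _, b _ => True
  | b _, a _ => False
  | b i, b j => i = j

instance : PartialOrder Crown where
  le := le
  le_refl x := by cases x <;> simp [le]
  le_trans x y z := by cases x <;> cases y <;> cases z <;> simp [le] <;> grind
  le_antisymm x y := by cases x <;> cases y <;> simp [le] <;> grind

lemma a_le_b (i j : Bool) : a i ≤ b j := trivial

lemma le_cases {x y : Crown} (h : x ≤ y) : x = y ∨ ∃ i j, x = a i ∧ y = b j := by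
  cases x with
  | a i => cases y with
    | a j => left; have : i = j := h; rw [this]
    | b j => exact Or.inr ⟨i, j, rfl, rfl⟩
  | b i => cases y with
    | a j => exact h.elim
    | b j => left; have : i = j := h; rw [this]

lemma isConnected : IsConnectedPoset Crown := by
  refine ⟨⟨a false⟩, ?_⟩
  have h1 : ∀ i j, Relation.EqvGen (fun x y : Crown => x ≤ y) (a i) (b j) :=
    fun i j => Relation.EqvGen.rel _ _ (a_le_b i j)
  intro x y
  cases x with
  | a i => cases y with
    | a j => exact (h1 i false).trans _ _ _ ((h1 j false).symm _ _)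
    | b j => exact h1 i j
  | b i => cases y with
    | a j => exact (h1 j i).symm _ _
    | b j => exact ((h1 false i).symm _ _).trans _ _ _ (h1 false j)

end Crown

section Module

variable {k : Type u} [Field k]

/-- The holonomy `(u, v) ↦ (u, t v)`. -/
def hol (t : k) : k × k →ₗ[k] k × k := LinearMap.id.prodMap (t • LinearMap.id)

@[simp] lemma hol_apply (t : k) (x : k × k) : hol t x = (x.1, t * x.2) := rfl

/-- The structure maps: all identities, except the one from `a 1` to `b 1`. -/
def smap (t : k) (x y : Crown) : k × k →ₗ[k] k × k :=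
  if x = Crown.a true ∧ y = Crown.b true then hol t else LinearMap.id

/-- The module over the crown. -/
def crownModule (t : k) : PosetModule.{u, 0, u} k Crown where
  V := fun _ => k × k
  φ := fun {x y} _ => smap t x y
  φ_id := fun x => by cases x <;> simp [smap]
  φ_comp := fun {x y z} h h' => by
    rcases Crown.le_cases h with rfl | ⟨i, j, rfl, rfl⟩
    · have : smap t x x = LinearMap.id := by cases x <;> simp [smap]
      rw [this]; rfl
    · rcases Crown.le_cases h' with rfl | ⟨i', j', h1, rfl⟩
      · have : smap t (Crown.b j) (Crown.b j) = LinearMap.id := by simp [smap]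
        rw [this]; rfl
      · exact absurd h1 (by simp)

lemma smap_bijective {t : k} (ht : t ≠ 0) (x y : Crown) : Function.Bijective (smap t x y) := by
  unfold smap
  split_ifs
  · constructor
    · intro p q h
      simp only [hol_apply, Prod.mk.injEq] at h
      exact Prod.ext h.1 (mul_left_cancel₀ ht h.2)
    · intro p
      exact ⟨(p.1, t⁻¹ * p.2), by simp [ht]⟩
  · exact Function.bijective_id

/-- The local structure of the crown module is trivial. -/
lemma localStructure_crown {t : k} (ht : t ≠ 0) (n : ℕ) (x : Crown) :
    localStructure (crownModule t) n x = {⊥, ⊤} := by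
  induction n generalizing x with
  | zero =>
    apply gen_eq_pair
    rintro W (⟨y, h, rfl⟩ | ⟨z, h, rfl⟩)
    · left; exact LinearMap.ker_eq_bot.mpr (smap_bijective ht x y).1
    · right; exact LinearMap.range_eq_top.mpr (smap_bijective ht z x).2
  | succ n ih =>
    apply gen_eq_pair
    rintro W (⟨y, h, U, hU, rfl⟩ | ⟨z, h, U, hU, rfl⟩)
    · rw [ih y] at hU
      rcases hU with rfl | rfl
      · left
        exact LinearMap.ker_eq_bot.mpr (smap_bijective ht x y).1
      · right; exact Submodule.comap_top _
    · rw [ih z] at hU
      rcases hU with rfl | rfl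
      · left; exact Submodule.map_bot _
      · right
        rw [Set.mem_singleton_iff, Submodule.map_top]
        exact LinearMap.range_eq_top.mpr (smap_bijective ht z x).2

/-- The line spanned by `(1, t ^ j)`. -/
def line (t : k) (j : ℕ) : Submodule k (k × k) := Submodule.span k {((1 : k), t ^ j)}

lemma map_line (t : k) (j : ℕ) : Submodule.map (hol t) (line t j) = line t (j + 1) := by
  simp [line, Submodule.map_span, pow_succ, mul_comm]

lemma line_injective {t : k} (ht0 : t ≠ 0) (ht : ∀ n : ℕ, 0 < n → t ^ n ≠ 1) :
    Function.Injective (line t) := by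
  have key : ∀ i j : ℕ, i < j → line t i ≠ line t j := by
    intro i j hij h
    have h1 : ((1 : k), t ^ i) ∈ line t j := by
      rw [← h]; exact Submodule.mem_span_singleton_self _
    obtain ⟨c, hc⟩ := Submodule.mem_span_singleton.mp h1
    simp only [Prod.smul_mk, smul_eq_mul, mul_one, Prod.mk.injEq] at hc
    obtain ⟨rfl, h3⟩ := hc
    rw [one_mul] at h3
    have h4 : t ^ i * t ^ (j - i) = t ^ i * 1 := by
      rw [← pow_add, mul_one, Nat.add_sub_cancel' hij.le, h3]
    exact ht (j - i) (Nat.sub_pos_of_lt hij) (mul_left_cancel₀ (pow_ne_zero _ ht0) h4)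
  intro i j h
  by_contra hne
  rcases Nat.lt_or_gt_of_ne hne with h1 | h1
  · exact key i j h1 h
  · exact key j i h1 h.symm

/-- The multi-flags: one extra line at `a 0`. -/
def flags (t : k) (x : Crown) : Set (Submodule k (k × k)) :=
  if x = Crown.a false then {⊥, line t 0, ⊤} else {⊥, ⊤}

lemma flags_spec (t : k) (x : Crown) : IsMultiFlag (flags t x) ∧ (flags t x).Finite := by
  unfold flags
  split_ifs
  · exact ⟨isMultiFlag_triple _, by simp⟩
  · exact ⟨isMultiFlag_pair, by simp⟩

lemma line_mem (t : k) (j : ℕ) :
    line t j ∈ relLocalStructure (crownModule t) (flags t) (4 * j) (Crown.a false) := by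
  induction j with
  | zero =>
    apply subset_gen
    right
    have h1 : line t 0 ∈ flags t (Crown.a false) := by
      rw [flags, if_pos rfl]
      exact Or.inr (Or.inl rfl)
    exact h1
  | succ j ih =>
    have up : ∀ (n : ℕ) (i i' : Bool) (U : Submodule k (k × k)),
        U ∈ relLocalStructure (crownModule t) (flags t) n (Crown.a i) →
        Submodule.map (smap t (Crown.a i) (Crown.b i')) U ∈
          relLocalStructure (crownModule t) (flags t) (n + 1) (Crown.b i') := by
      intro n i i' U hU
      apply subset_gen
      exact Or.inr ⟨Crown.a i, Crown.a_le_b i i', U, hU, rfl⟩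
    have down : ∀ (n : ℕ) (i i' : Bool) (U : Submodule k (k × k)),
        U ∈ relLocalStructure (crownModule t) (flags t) n (Crown.b i') →
        Submodule.comap (smap t (Crown.a i) (Crown.b i')) U ∈
          relLocalStructure (crownModule t) (flags t) (n + 1) (Crown.a i) := by
      intro n i i' U hU
      apply subset_gen
      exact Or.inl ⟨Crown.b i', Crown.a_le_b i i', U, hU, rfl⟩
    have h1 := up _ false false _ ih
    have h2 := down _ true false _ h1
    have h3 := up _ true true _ h2
    have h4 := down _ false true _ h3
    have e1 : smap t (Crown.a false) (Crown.b false) = LinearMap.id := by simp [smap]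
    have e2 : smap t (Crown.a true) (Crown.b false) = LinearMap.id := by simp [smap]
    have e3 : smap t (Crown.a true) (Crown.b true) = hol t := by simp [smap]
    have e4 : smap t (Crown.a false) (Crown.b true) = LinearMap.id := by simp [smap]
    rw [e1, e2, e3, e4, Submodule.map_id, Submodule.comap_id, Submodule.comap_id, map_line] at h4
    exact h4

lemma crown_not_stronglyStable {t : k} (ht0 : t ≠ 0) (ht : ∀ n : ℕ, 0 < n → t ^ n ≠ 1) :
    ¬ StronglyStable (crownModule t) := by
  intro h
  obtain ⟨N, hN⟩ := h (flags t) (flags_spec t)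
  have hfin := relLocalStructure_finite (crownModule t) (flags t) (fun x => (flags_spec t x).2) N
    (Crown.a false)
  rw [← hN (Crown.a false)] at hfin
  have hsub : Set.range (line t) ⊆
      ⋃ n, relLocalStructure (crownModule t) (flags t) n (Crown.a false) := by
    rintro _ ⟨j, rfl⟩
    exact Set.mem_iUnion.mpr ⟨4 * j, line_mem t j⟩
  exact Set.infinite_range_of_injective (line_injective ht0 ht) (hfin.subset hsub)

end Module

/-- Over every field with an element of infinite multiplicative order (that is, every field which
is not algebraic over a finite field, such as `ℚ`) there are a finite connected poset `C` and a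
`C`-module whose local structure is stable but not strongly stable. -/
theorem result (k : Type u) [Field k] (hk : ∃ t : k, t ≠ 0 ∧ ∀ n : ℕ, 0 < n → t ^ n ≠ 1) :
    ∃ (C : Type) (_ : PartialOrder C) (_ : Finite C) (M : PosetModule.{u, 0, u} k C),
      IsConnectedPoset C ∧ Stable M ∧ ¬ StronglyStable M := by
  obtain ⟨t, ht0, ht⟩ := hk
  refine ⟨Crown, inferInstance, inferInstance, crownModule t, Crown.isConnected, ?_,
    crown_not_stronglyStable ht0 ht⟩
  intro x
  exact ⟨0, fun n _ => by rw [localStructure_crown ht0, localStructure_crown ht0]⟩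

end Pool.Agent.Results.MP_0548d2_gt.StableNotStronglyStable
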